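import Pool.Agent.R475.SH.Meas

/-!
# A set of points of the Cantor space on which partial Borel isomorphisms are nearly trivial
-/

set_option autoImplicit false

namespace Pool.Agent.R475.SH

open Set Cardinal Topology MeasureTheory Pool.Agent.H3R3.Rigid Pool.Agent.Y443.BR
open scoped ENNReal

abbrev BM : Type := {f : C → C // Measurable f}
abbrev BS : Type := {B : Set C // MeasurableSet B}
abbrev Lam : Type := (𝔠 : Cardinal.{0}).ord.ToType

lemma mk_union_lt {s t : Set C} (hs : #s < 𝔠) (ht : #t < 𝔠) : #(s ∪ t : Set C) < 𝔠 :=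
  (mk_union_le _ _).trans_lt (add_lt_of_lt aleph0_le_continuum hs ht)

lemma aleph0_lt_cof : ℵ₀ < (𝔠 : Cardinal.{0}).ord.cof := by
  have h := lt_cof_ord_power (a := ℵ₀) (b := 2) le_rfl one_lt_two
  rwa [two_power_aleph0] at h

lemma mk_iUnion_lt {N : ℕ → Set C} (h : ∀ n, #(N n) < 𝔠) : #(⋃ n, N n : Set C) < 𝔠 := by
  refine (mk_iUnion_le _).trans_lt ?_
  refine mul_lt_of_lt aleph0_le_continuum (by simp [aleph0_lt_continuum]) ?_
  exact iSup_lt_of_lt_cof_ord (by rw [mk_nat]; exact aleph0_lt_cof) h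

lemma mk_preimage_lam (i : Lam) : #(Iio i) < 𝔠 := mk_Iio_toType_ord_lt i

lemma mk_Iic_lam (i : Lam) : #(Iic i) < 𝔠 := by
  have h : (Iic i : Set Lam) ⊆ Iio i ∪ {i} := by
    intro j hj
    rcases (mem_Iic.1 hj).lt_or_eq with h | h
    · exact Or.inl h
    · exact Or.inr h
  refine (mk_le_mk_of_subset h).trans_lt ((mk_union_le _ _).trans_lt ?_)
  refine add_lt_of_lt aleph0_le_continuum (mk_preimage_lam i) ?_
  rw [mk_singleton]
  exact one_lt_aleph0.trans aleph0_lt_continuum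

lemma exists_enum {T : Type} [Nonempty T] (h : #T ≤ 𝔠) :
    ∃ e : Lam → T, Function.Surjective e := by
  have h1 : #T ≤ #Lam := by
    rw [mk_ord_toType]; exact h
  obtain ⟨g⟩ := h1
  exact ⟨Function.invFun g, Function.invFun_surjective g.injective⟩

/-- a small union of countable sets is small -/
lemma mk_biUnion_countable {I : Set Lam} (hI : #I < 𝔠) {N : Lam → Set C}
    (hN : ∀ i ∈ I, (N i).Countable) : #(⋃ i ∈ I, N i : Set C) < 𝔠 := by
  rw [biUnion_eq_iUnion]
  refine (mk_iUnion_le _).trans_lt ?_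
  refine mul_lt_of_lt aleph0_le_continuum hI ?_
  refine lt_of_le_of_lt (ciSup_le' fun j => (hN j.1 j.2).le_aleph0) aleph0_lt_continuum

lemma exists_not_mem_of_lt {S N : Set C} (h : 𝔠 ≤ #S) (hN : #N < 𝔠) : ∃ x ∈ S, x ∉ N := by
  by_contra hc
  push Not at hc
  exact absurd (h.trans (mk_le_mk_of_subset hc)) (not_le.2 hN)

theorem exists_set : ∃ X : Set C, (∀ p q, E0 p q → p ∈ X → q ∈ X) ∧
    (∀ K : Set C, MeasurableSet K → mu K ≠ 0 → 𝔠 ≤ #(K ∩ X : Set C)) ∧
    (∀ F F' : C → C, Measurable F → Measurable F' →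
      #{x | x ∈ X ∧ F x ∈ X ∧ F' (F x) = x ∧ ¬ E0 x (F x)} < 𝔠) := by
  classical
  have hT : #(BM × BS × C) ≤ 𝔠 := by
    rw [mk_prod, mk_prod, mk_C]
    simp only [lift_id]
    refine mul_le_of_le aleph0_le_continuum mk_borelMap ?_
    exact mul_le_of_le aleph0_le_continuum mk_borel le_rfl
  have : Nonempty (BM × BS × C) := ⟨⟨id, measurable_id⟩, ⟨univ, MeasurableSet.univ⟩, fun _ => true⟩
  obtain ⟨e, he⟩ := exists_enum hT
  let Q : ∀ i : Lam, (∀ j, j < i → C) → C → Prop := fun i g x =>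
    (mu (e i).2.1.1 ≠ 0 → x ∈ (e i).2.1.1) ∧ ∀ j (hj : j < i), ¬ E0 (g j hj) x ∧
      ∀ k < i, ∀ z, E0 (g j hj) z → ¬ E0 ((e k).1.1 z) x
  have hQ : ∀ i g, ∃ a, Q i g a := by
    intro i g
    let N : Set C := (⋃ j : Iio i, {y | E0 (g j.1 j.2) y}) ∪
      ⋃ jk : Iio i × Iio i, ⋃ z ∈ {z | E0 (g jk.1.1 jk.1.2) z}, {y | E0 ((e jk.2.1).1.1 z) y}
    have hN : #N < 𝔠 := by
      refine mk_union_lt ?_ ?_
      · refine (mk_iUnion_le _).trans_lt ?_
        refine mul_lt_of_lt aleph0_le_continuum (mk_preimage_lam i) ?_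
        exact lt_of_le_of_lt (ciSup_le' fun j => (E0.countable _).le_aleph0) aleph0_lt_continuum
      · refine (mk_iUnion_le _).trans_lt ?_
        refine mul_lt_of_lt aleph0_le_continuum ?_ ?_
        · rw [mk_prod]
          simp only [lift_id]
          exact mul_lt_of_lt aleph0_le_continuum (mk_preimage_lam i) (mk_preimage_lam i)
        · refine lt_of_le_of_lt (ciSup_le' fun j => ?_) aleph0_lt_continuum
          have h1 : (⋃ z ∈ {z | E0 (g j.1.1 j.1.2) z}, {y | E0 ((e j.2.1).1.1 z) y}).Countable :=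
            (E0.countable _).biUnion fun z _ => E0.countable _
          exact h1.le_aleph0
    have hK : 𝔠 ≤ #(if mu (e i).2.1.1 ≠ 0 then (e i).2.1.1 else univ : Set C) := by
      split_ifs with h
      · exact mk_of_pos (e i).2.1.2 h
      · rw [mk_univ, mk_C]
    obtain ⟨x, hx, hxN⟩ := exists_not_mem_of_lt hK hN
    refine ⟨x, fun h => ?_, fun j hj => ⟨fun h => hxN ?_, fun k hk z hz h => hxN ?_⟩⟩
    · rw [if_pos h] at hx; exact hx
    · exact Or.inl (mem_iUnion.2 ⟨⟨j, hj⟩, h⟩)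
    · exact Or.inr (mem_iUnion.2 ⟨⟨⟨j, hj⟩, ⟨k, hk⟩⟩, mem_iUnion₂.2 ⟨z, hz, h⟩⟩)
  obtain ⟨x, hx⟩ := exists_rec (r := fun a b : Lam => a < b) wellFounded_lt Q hQ
  have hne : ∀ i j, E0 (x i) (x j) → i = j := by
    intro i j h
    rcases lt_trichotomy i j with h1 | h1 | h1
    · exact absurd h ((hx j).2 i h1).1
    · exact h1
    · exact absurd h.symm ((hx i).2 j h1).1
  refine ⟨{p | ∃ i, E0 (x i) p}, ?_, ?_, ?_⟩
  · rintro p q hpq ⟨i, hi⟩
    exact ⟨i, hi.trans hpq⟩
  · intro K hK hKm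
    choose i hi using fun p : C => he (⟨id, measurable_id⟩, ⟨K, hK⟩, p)
    have h1 : ∀ p, x (i p) ∈ K := by
      intro p
      have h2 := (hx (i p)).1
      rw [hi p] at h2
      exact h2 hKm
    have h2 : #C ≤ #(K ∩ {p | ∃ i, E0 (x i) p} : Set C) := by
      refine mk_le_of_injective (f := fun p : C => (⟨x (i p), h1 p, i p, E0.refl _⟩ :
        (K ∩ {p | ∃ i, E0 (x i) p} : Set C))) ?_
      intro p q hpq
      have h3 : x (i p) = x (i q) := congrArg Subtype.val hpq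
      have h4 : i p = i q := hne _ _ (by rw [h3]; exact E0.refl _)
      have h5 := hi p
      rw [h4, hi q] at h5
      exact (congrArg (fun t : BM × BS × C => t.2.2) h5).symm
    rwa [mk_C] at h2
  · intro F F' hF hF'
    obtain ⟨γ, hγ⟩ := he (⟨F, hF⟩, ⟨univ, MeasurableSet.univ⟩, fun _ => true)
    obtain ⟨γ', hγ'⟩ := he (⟨F', hF'⟩, ⟨univ, MeasurableSet.univ⟩, fun _ => true)
    have h1 : {y | y ∈ {p | ∃ i, E0 (x i) p} ∧ F y ∈ {p | ∃ i, E0 (x i) p} ∧ F' (F y) = y ∧
        ¬ E0 y (F y)} ⊆ ⋃ i ∈ Iic (max γ γ'), {y | E0 (x i) y} := by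
      rintro y ⟨⟨i, hi⟩, ⟨j, hj⟩, hy, hy'⟩
      refine mem_iUnion₂.2 ⟨i, ?_, hi⟩
      rw [mem_Iic]
      rcases lt_trichotomy i j with h | h | h
      · by_contra hc
        push Not at hc
        have h2 := ((hx j).2 i h).2 γ ((le_max_left _ _).trans_lt (hc.trans h)) y hi
        rw [hγ] at h2
        exact h2 hj.symm
      · subst h
        exact absurd (hi.symm.trans hj) hy'
      · by_contra hc
        push Not at hc
        have h2 := ((hx i).2 j h).2 γ' ((le_max_right _ _).trans_lt hc) (F y) hj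
        rw [hγ'] at h2
        apply h2
        show E0 (F' (F y)) (x i)
        rw [hy]
        exact hi.symm
    exact (mk_le_mk_of_subset h1).trans_lt
      (mk_biUnion_countable (mk_Iic_lam _) fun i _ => E0.countable _)

end Pool.Agent.R475.SH
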