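import Pool.Agent.R475.SH.Rec

/-!
# Densities along dyadic blocks
-/

set_option autoImplicit false

namespace Pool.Agent.R475.SH

open Set Cardinal Topology MeasureTheory Filter Pool.Agent.H3R3.Rigid Pool.Agent.Y443.BR
open scoped ENNReal

/-- the block number `k` -/
def blk (k : ℕ) : Finset ℕ := Finset.Ico (2 ^ k - 1) (2 ^ (k + 1) - 1)

lemma card_blk (k : ℕ) : (blk k).card = 2 ^ k := by
  have h : 0 < 2 ^ k := by positivity
  rw [blk, Nat.card_Ico, pow_succ]
  omega

lemma le_of_mem_blk {k n : ℕ} (h : n ∈ blk k) : k ≤ n := by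
  rw [blk, Finset.mem_Ico] at h
  have h1 : k < 2 ^ k := Nat.lt_two_pow_self
  omega

lemma log_of_mem_blk {k n : ℕ} (h : n ∈ blk k) : Nat.log 2 (n + 1) = k := by
  rw [blk, Finset.mem_Ico] at h
  have h1 : 0 < 2 ^ k := by positivity
  have h2 : 0 < 2 ^ (k + 1) := by positivity
  rw [Nat.log_eq_iff (Or.inr ⟨one_lt_two, by omega⟩)]
  constructor <;> omega

/-- the density in the block number `k` -/
noncomputable def d (k : ℕ) (x : C) : ℝ := ((blk k).filter fun n => x n = true).card / 2 ^ k

lemma d_nonneg (k : ℕ) (x : C) : 0 ≤ d k x := by unfold d; positivity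

lemma d_le (k : ℕ) {x y : C} (h : ∀ n ∈ blk k, x n = true → y n = true) : d k x ≤ d k y := by
  unfold d
  refine div_le_div_of_nonneg_right (Nat.cast_le.2 (Finset.card_le_card fun n hn => ?_))
    (by positivity)
  rw [Finset.mem_filter] at hn ⊢
  exact ⟨hn.1, h n hn.1 hn.2⟩

lemma d_le_add (k : ℕ) {x y z : C} (h : ∀ n ∈ blk k, x n = true → y n = true ∨ z n = true) :
    d k x ≤ d k y + d k z := by
  unfold d
  rw [← add_div]
  gcongr
  rw [← Nat.cast_add, Nat.cast_le]
  refine (Finset.card_le_card ?_).trans (Finset.card_union_le _ _)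
  intro n hn
  rw [Finset.mem_filter] at hn
  rw [Finset.mem_union, Finset.mem_filter, Finset.mem_filter]
  rcases h n hn.1 hn.2 with h | h
  · exact Or.inl ⟨hn.1, h⟩
  · exact Or.inr ⟨hn.1, h⟩

lemma d_add_eq (k : ℕ) {x y : C} (h : ∀ n ∈ blk k, x n = true → y n = true) :
    d k (add x y) = d k y - d k x := by
  have h1 : ((blk k).filter fun n => x n = true).card +
      ((blk k).filter fun n => add x y n = true).card = ((blk k).filter fun n => y n = true).card := by
    rw [← Finset.card_union_of_disjoint]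
    · congr 1
      ext n
      rw [Finset.mem_union, Finset.mem_filter, Finset.mem_filter, Finset.mem_filter]
      simp only [add]
      constructor
      · rintro (⟨h1, h2⟩ | ⟨h1, h2⟩)
        · exact ⟨h1, h n h1 h2⟩
        · refine ⟨h1, ?_⟩
          have h3 := h n h1
          revert h2 h3
          cases x n <;> cases y n <;> simp
      · rintro ⟨h1, h2⟩
        cases hx : x n
        · right
          refine ⟨h1, ?_⟩
          rw [h2]; rfl
        · left
          exact ⟨h1, rfl⟩
    · rw [Finset.disjoint_left]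
      intro n hn hn'
      rw [Finset.mem_filter] at hn hn'
      have h2 := h n hn.1 hn.2
      have h3 := hn'.2
      simp only [add] at h3
      rw [hn.2, h2] at h3
      exact absurd h3 (by simp)
  unfold d
  rw [← h1]
  push_cast
  ring

lemma d_fin {x : C} (hx : {n | x n = true}.Finite) : ∀ᶠ k in atTop, d k x = 0 := by
  obtain ⟨N, hN⟩ := hx.bddAbove
  filter_upwards [eventually_gt_atTop N] with k hk
  have h1 : ((blk k).filter fun n => x n = true) = ∅ := by
    rw [Finset.filter_eq_empty_iff]
    intro n hn hn'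
    have h2 := hN hn'
    have h3 := le_of_mem_blk hn
    omega
  rw [d, h1]
  simp

/-- inclusion up to a finite set -/
def AE (x y : C) : Prop := {n | x n = true ∧ y n = false}.Finite

lemma AE.refl (x : C) : AE x x := by
  have h : {n | x n = true ∧ x n = false} = ∅ := by
    ext n
    cases x n <;> simp
  unfold AE
  rw [h]
  exact finite_empty

lemma AE.trans {x y z : C} (h : AE x y) (h' : AE y z) : AE x z := by
  refine (Set.Finite.union h h').subset ?_
  rintro n ⟨h1, h2⟩
  cases hy : y n
  · exact Or.inl ⟨h1, hy⟩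
  · exact Or.inr ⟨hy, h2⟩

lemma E0_of_AE {x y : C} (h : AE x y) (h' : AE y x) : E0 x y := by
  refine (Set.Finite.union h h').subset ?_
  intro n hn
  have hn' : x n ≠ y n := hn
  cases hx : x n
  · refine Or.inr ⟨?_, hx⟩
    rw [hx] at hn'
    cases hy : y n
    · exact absurd hy.symm hn'
    · rfl
  · refine Or.inl ⟨hx, ?_⟩
    rw [hx] at hn'
    cases hy : y n
    · rfl
    · exact absurd hy.symm hn'

lemma AE.eventually {x y : C} (h : AE x y) :
    ∀ᶠ k in atTop, ∀ n ∈ blk k, x n = true → y n = true := by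
  obtain ⟨N, hN⟩ := Set.Finite.bddAbove h
  filter_upwards [eventually_gt_atTop N] with k hk n hn hx
  by_contra hy
  have h2 := hN (show n ∈ {n | x n = true ∧ y n = false} from ⟨hx, by simpa using hy⟩)
  have h3 := le_of_mem_blk hn
  omega

/-- the points of density one half -/
def NN : Set C := {x | Tendsto (fun k => d k x) atTop (𝓝 (1 / 2))}

/-- the points of a larger upper density -/
def DD : Set C := {x | ∃ ε > 0, ∃ᶠ k in atTop, 1 / 2 + ε < d k x}

/-- density zero of the difference -/
def Sim (x y : C) : Prop := Tendsto (fun k => d k (add x y)) atTop (𝓝 0)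

lemma add_comm' (x y : C) : add x y = add y x := by
  funext n
  exact Bool.xor_comm _ _

lemma Sim.symm {x y : C} (h : Sim x y) : Sim y x := by
  unfold Sim
  rw [add_comm']
  exact h

lemma Sim.refl (x : C) : Sim x x := by
  have h : ∀ k, d k (add x x) = 0 := by
    intro k
    have h1 := d_add_eq k (x := x) (y := x) (fun _ _ h => h)
    rw [h1, sub_self]
  unfold Sim
  simp_rw [h]
  exact tendsto_const_nhds

lemma Sim.trans {x y z : C} (h : Sim x y) (h' : Sim y z) : Sim x z := by
  have h1 := Tendsto.add h h'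
  rw [add_zero] at h1
  refine squeeze_zero (fun k => d_nonneg k _) (fun k => ?_) h1
  refine d_le_add k fun n _ hn => ?_
  simp only [add] at hn ⊢
  revert hn
  cases x n <;> cases y n <;> cases z n <;> simp

lemma DD_up {x y : C} (h : AE x y) (hx : x ∈ DD) : y ∈ DD := by
  obtain ⟨ε, hε, hf⟩ := hx
  refine ⟨ε, hε, ?_⟩
  refine (hf.and_eventually h.eventually).mono ?_
  rintro k ⟨h1, h2⟩
  exact h1.trans_le (d_le k h2)

lemma NN_up {x y : C} (h : AE x y) (hx : x ∈ NN) (hy : y ∉ DD) : y ∈ NN := by
  have hx' : Tendsto (fun k => d k x) atTop (𝓝 (1 / 2)) := hx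
  show Tendsto (fun k => d k y) atTop (𝓝 (1 / 2))
  rw [tendsto_order]
  constructor
  · intro a ha
    filter_upwards [(tendsto_order.1 hx').1 a ha, h.eventually] with k h1 h2
    exact h1.trans_le (d_le k h2)
  · intro a ha
    by_contra hc
    apply hy
    refine ⟨(a - 1 / 2) / 2, by linarith, ?_⟩
    have h1 : ∃ᶠ k in atTop, ¬ d k y < a := not_eventually.1 hc
    refine h1.mono fun k hk => ?_
    push Not at hk
    linarith

lemma NN_not_DD {x : C} (hx : x ∈ NN) : x ∉ DD := by
  rintro ⟨ε, hε, hf⟩
  have hx' : Tendsto (fun k => d k x) atTop (𝓝 (1 / 2)) := hx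
  have h1 := (tendsto_order.1 hx').2 (1 / 2 + ε) (by linarith)
  obtain ⟨k, h2, h3⟩ := (hf.and_eventually h1).exists
  exact absurd h2 (not_lt.2 h3.le)

lemma sim_of_AE {x y : C} (h : AE x y) (hx : x ∈ NN) (hy : y ∈ NN) : Sim x y := by
  have hx' : Tendsto (fun k => d k x) atTop (𝓝 (1 / 2)) := hx
  have hy' : Tendsto (fun k => d k y) atTop (𝓝 (1 / 2)) := hy
  have h1 := hy'.sub hx'
  rw [sub_self] at h1
  refine h1.congr' ?_
  filter_upwards [h.eventually] with k hk
  exact (d_add_eq k hk).symm

/-- a family of `𝔠` pairwise inequivalent points -/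
def tt (u : C) : C := fun n => u (Nat.unpair (Nat.log 2 (n + 1))).1

lemma tt_ne {u v : C} (h : Sim (tt u) (tt v)) : u = v := by
  funext j
  by_contra hne
  have h' : Tendsto (fun k => d k (add (tt u) (tt v))) atTop (𝓝 0) := h
  have h1 := (tendsto_order.1 h').2 1 one_pos
  rw [eventually_atTop] at h1
  obtain ⟨K, hK⟩ := h1
  have h2 := hK (Nat.pair j K) (Nat.right_le_pair j K)
  have h3 : ((blk (Nat.pair j K)).filter fun n => add (tt u) (tt v) n = true) =
      blk (Nat.pair j K) := by
    rw [Finset.filter_eq_self]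
    intro n hn
    simp only [add, tt]
    rw [log_of_mem_blk hn, Nat.unpair_pair]
    revert hne
    simp only
    cases u j <;> cases v j <;> simp
  rw [d, h3, card_blk] at h2
  simp at h2

lemma sim_add_iff (x : C) {y z : C} : Sim (add x y) (add x z) ↔ Sim y z := by
  have h : add (add x y) (add x z) = add y z := by
    funext n
    simp only [add]
    cases x n <;> cases y n <;> cases z n <;> rfl
  unfold Sim
  rw [h]

/-- Every Borel set of positive measure meets many classes. -/
theorem exists_avoid {P : Set C} (hP : MeasurableSet P) (hP0 : mu P ≠ 0) {R : Set C}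
    (hR : #R < 𝔠) : ∃ x ∈ P, ∀ r ∈ R, ¬ Sim r x := by
  classical
  let G : C × C → C := fun p => add p.1 (tt p.2)
  have hG : Measurable G := by
    refine measurable_pi_lambda _ fun n => ?_
    have h1 : Measurable fun p : C × C => (p.1 n, p.2 (Nat.unpair (Nat.log 2 (n + 1))).1) :=
      ((measurable_pi_apply n).comp measurable_fst).prodMk
        ((measurable_pi_apply _).comp measurable_snd)
    exact (measurable_of_countable (fun q : Bool × Bool => xor q.1 q.2)).comp h1
  have hE : MeasurableSet (G ⁻¹' P) := hG hP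
  have h1 := Measure.prod_apply (μ := mu) (ν := mu) hE
  have h2 := Measure.prod_apply_symm (μ := mu) (ν := mu) hE
  have h3 : ∀ u, mu ((fun x => (x, u)) ⁻¹' (G ⁻¹' P)) = mu P := by
    intro u
    have h4 : (fun x => (x, u)) ⁻¹' (G ⁻¹' P) = add (tt u) ⁻¹' P := by
      ext x
      show add x (tt u) ∈ P ↔ add (tt u) x ∈ P
      rw [add_comm']
    rw [h4, mu_preimage_add _ hP]
  simp_rw [h3] at h2
  rw [lintegral_const, measure_univ, mul_one] at h2
  obtain ⟨x, hx⟩ : ∃ x, mu (Prod.mk x ⁻¹' (G ⁻¹' P)) ≠ 0 := by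
    by_contra hc
    push Not at hc
    simp_rw [hc] at h1
    rw [lintegral_zero, h2] at h1
    exact hP0 h1
  have h4 := mk_of_pos (measurable_prodMk_left hE) hx
  by_contra hc
  push Not at hc
  have h5 : ∀ u : (Prod.mk x ⁻¹' (G ⁻¹' P) : Set C), ∃ r ∈ R, Sim r (add x (tt u.1)) :=
    fun u => hc _ u.2
  choose r hr hr' using h5
  have h6 : #(Prod.mk x ⁻¹' (G ⁻¹' P) : Set C) ≤ #R := by
    refine mk_le_of_injective (f := fun u => (⟨r u, hr u⟩ : R)) ?_
    intro u v huv
    have h7 : r u = r v := congrArg Subtype.val huv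
    have h8 := hr' u
    rw [h7] at h8
    exact Subtype.ext (tt_ne ((sim_add_iff x).1 (h8.symm.trans (hr' v))))
  exact absurd (h4.trans h6) (not_le.2 hR)

/-! ### Almost every point has density one half -/

/-- the Rademacher functions -/
noncomputable def rd (n : ℕ) (x : C) : ℝ := if x n = true then 1 else -1

lemma measurable_rd (n : ℕ) : Measurable (rd n) :=
  (measurable_of_countable (fun b : Bool => if b = true then (1 : ℝ) else -1)).comp
    (measurable_pi_apply n)

lemma rd_sq (n : ℕ) (x : C) : rd n x * rd n x = 1 := by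
  unfold rd
  split_ifs <;> norm_num

lemma rd_abs (n : ℕ) (x : C) : |rd n x| = 1 := by
  unfold rd
  split_ifs <;> norm_num

lemma integrable_rd (m n : ℕ) : Integrable (fun x => rd m x * rd n x) mu := by
  refine Integrable.of_bound ((measurable_rd m).mul (measurable_rd n)).aestronglyMeasurable 1 ?_
  refine Eventually.of_forall fun x => ?_
  rw [Real.norm_eq_abs, abs_mul, rd_abs, rd_abs, mul_one]

lemma integral_rd {m n : ℕ} (h : m ≠ n) : ∫ x, rd m x * rd n x ∂mu = 0 := by
  let t : C := fun i => decide (i = m)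
  have h1 : ∫ x, rd m x * rd n x ∂mu = ∫ x, rd m (add t x) * rd n (add t x) ∂mu := by
    conv_lhs => rw [← mu_map_add t]
    exact integral_map (f := fun x => rd m x * rd n x) (measurable_add t).aemeasurable
      ((measurable_rd m).mul (measurable_rd n)).aestronglyMeasurable
  have h2 : ∀ x, rd m (add t x) * rd n (add t x) = -(rd m x * rd n x) := by
    intro x
    have h3 : rd m (add t x) = - rd m x := by
      have h4 : add t x m = !x m := by simp [add, t]
      unfold rd
      rw [h4]
      cases x m <;> simp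
    have h5 : rd n (add t x) = rd n x := by
      have h4 : add t x n = x n := by
        simp only [add, t]
        rw [decide_eq_false (Ne.symm h)]
        simp
      unfold rd
      rw [h4]
    rw [h3, h5]
    ring
  simp_rw [h2] at h1
  rw [integral_neg] at h1
  linarith

lemma d_eq (k : ℕ) (x : C) : d k x - 1 / 2 = (∑ n ∈ blk k, rd n x) / (2 * 2 ^ k) := by
  have h1 : (∑ n ∈ blk k, rd n x) = 2 * ((blk k).filter fun n => x n = true).card - 2 ^ k := by
    have h2 : ∀ n, rd n x = 2 * (if x n = true then 1 else 0) - 1 := by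
      intro n
      unfold rd
      split_ifs <;> norm_num
    simp_rw [h2]
    rw [Finset.sum_sub_distrib, ← Finset.mul_sum, Finset.sum_boole, Finset.sum_const, card_blk]
    simp
  rw [h1, d]
  have h2 : (2 : ℝ) ^ k ≠ 0 := by positivity
  field_simp

lemma integral_d (k : ℕ) : ∫ x, (d k x - 1 / 2) ^ 2 ∂mu = 1 / 4 * (1 / 2) ^ k := by
  have h1 : ∀ x, (d k x - 1 / 2) ^ 2 =
      (∑ m ∈ blk k, ∑ n ∈ blk k, rd m x * rd n x) * (1 / (2 * 2 ^ k) ^ 2) := by
    intro x
    rw [d_eq, div_pow, sq (∑ n ∈ blk k, rd n x), Finset.sum_mul_sum]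
    ring
  simp_rw [h1]
  rw [integral_mul_const, integral_finsetSum _ (fun m _ => integrable_finsetSum _
    fun n _ => integrable_rd m n)]
  have h2 : ∀ m ∈ blk k, ∫ x, ∑ n ∈ blk k, rd m x * rd n x ∂mu = 1 := by
    intro m hm
    rw [integral_finsetSum _ (fun n _ => integrable_rd m n)]
    rw [Finset.sum_eq_single_of_mem m hm (fun n _ hn => integral_rd (Ne.symm hn))]
    simp_rw [rd_sq]
    simp
  rw [Finset.sum_congr rfl h2, Finset.sum_const, card_blk]
  have h3 : (2 : ℝ) ^ k ≠ 0 := by positivity
  simp only [nsmul_eq_mul, mul_one, one_div, inv_pow]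
  push_cast
  field_simp
  ring

lemma measurable_d (k : ℕ) : Measurable (d k) := by
  have h : d k = fun x => (∑ n ∈ blk k, rd n x) / (2 * 2 ^ k) + 1 / 2 := by
    funext x
    rw [← d_eq]; ring
  rw [h]
  exact ((Finset.measurable_sum _ fun n _ => measurable_rd n).div_const _).add_const _

lemma d_le_one (k : ℕ) (x : C) : d k x ≤ 1 := by
  unfold d
  rw [div_le_one (by positivity)]
  have h := Finset.card_filter_le (blk k) (fun n => x n = true)
  rw [card_blk] at h
  exact_mod_cast h

theorem ae_NN : ∀ᵐ x ∂mu, x ∈ NN := by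
  have h1 : ∀ k, ∫⁻ x, ENNReal.ofReal ((d k x - 1 / 2) ^ 2) ∂mu =
      ENNReal.ofReal (1 / 4 * (1 / 2) ^ k) := by
    intro k
    rw [← integral_d k, ofReal_integral_eq_lintegral_ofReal]
    · refine Integrable.of_bound (((measurable_d k).sub_const _).pow_const 2).aestronglyMeasurable 1 ?_
      refine Eventually.of_forall fun x => ?_
      rw [Real.norm_eq_abs, abs_of_nonneg (sq_nonneg _)]
      have h2 := d_nonneg k x
      have h3 := d_le_one k x
      nlinarith
    · exact Eventually.of_forall fun x => sq_nonneg _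
  have h2 : ∫⁻ x, ∑' k, ENNReal.ofReal ((d k x - 1 / 2) ^ 2) ∂mu ≠ ∞ := by
    rw [lintegral_tsum fun k =>
      (((measurable_d k).sub_const _).pow_const 2).ennreal_ofReal.aemeasurable]
    simp_rw [h1]
    rw [← ENNReal.ofReal_tsum_of_nonneg (fun k => by positivity)]
    · exact ENNReal.ofReal_ne_top
    · exact (summable_geometric_of_lt_one (by norm_num) (by norm_num)).mul_left _
  have h3 := ae_lt_top (Measurable.tsum fun k =>
    (((measurable_d k).sub_const (1 / 2)).pow_const 2).ennreal_ofReal) h2
  filter_upwards [h3] with x hx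
  have h4 := ENNReal.tendsto_atTop_zero_of_tsum_ne_top hx.ne
  have h5 : Tendsto (fun k => (d k x - 1 / 2) ^ 2) atTop (𝓝 0) := by
    have h6 := (ENNReal.tendsto_toReal ENNReal.zero_ne_top).comp h4
    refine h6.congr fun k => ?_
    show (ENNReal.ofReal ((d k x - 1 / 2) ^ 2)).toReal = _
    rw [ENNReal.toReal_ofReal (sq_nonneg _)]
  have h6 : Tendsto (fun k => |d k x - 1 / 2|) atTop (𝓝 0) := by
    have h7 := (Real.continuous_sqrt.tendsto 0).comp h5
    rw [Real.sqrt_zero] at h7
    refine h7.congr fun k => ?_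
    show Real.sqrt ((d k x - 1 / 2) ^ 2) = _
    rw [Real.sqrt_sq_eq_abs]
  have h7 : Tendsto (fun k => d k x - 1 / 2) atTop (𝓝 0) := (tendsto_zero_iff_abs_tendsto_zero _).2 h6
  have h8 := h7.add_const (1 / 2)
  simp only [sub_add_cancel, zero_add] at h8
  exact h8

lemma measurableSet_NN : MeasurableSet NN := measurableSet_tendsto _ fun k => measurable_d k

lemma mu_inter_NN (K : Set C) : mu (K ∩ NN) = mu K := by
  refine le_antisymm (measure_mono inter_subset_left) ?_
  have h : mu NNᶜ = 0 := ae_NN
  calc mu K ≤ mu ((K ∩ NN) ∪ NNᶜ) := measure_mono fun x hx => by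
        by_cases h : x ∈ NN
        · exact Or.inl ⟨hx, h⟩
        · exact Or.inr h
    _ ≤ mu (K ∩ NN) + mu NNᶜ := measure_union_le _ _
    _ = mu (K ∩ NN) := by rw [h, add_zero]

end Pool.Agent.R475.SH
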