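import Pool.Agent.Y443.BR.Fin

/-!
# The coin tossing measure on the Cantor space and maps which change finitely many coordinates
-/

set_option autoImplicit false

namespace Pool.Agent.R475.SH

open Set Cardinal Topology MeasureTheory Pool.Agent.H3R3.Rigid Pool.Agent.Y443.BR
open scoped ENNReal

/-- the fair coin -/
noncomputable def coin : Measure Bool :=
  (2⁻¹ : ℝ≥0∞) • (Measure.dirac true + Measure.dirac false)

lemma coin_apply (s : Set Bool) : coin s = 2⁻¹ * (s.indicator 1 true + s.indicator 1 false) := by
  rw [coin, Measure.smul_apply, Measure.add_apply, Measure.dirac_apply' _ (MeasurableSet.of_discrete),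
    Measure.dirac_apply' _ (MeasurableSet.of_discrete), smul_eq_mul]

lemma coin_singleton (b : Bool) : coin {b} = 2⁻¹ := by
  rw [coin_apply]
  cases b <;> simp

instance : IsProbabilityMeasure coin := ⟨by
  rw [coin_apply]
  simp only [indicator_univ, Pi.one_apply]
  rw [one_add_one_eq_two]
  exact ENNReal.inv_mul_cancel (by norm_num) (by norm_num)⟩

lemma coin_map_xor (b : Bool) : coin.map (fun c => xor b c) = coin := by
  ext s hs
  rw [Measure.map_apply (measurable_of_countable _) hs, coin_apply, coin_apply]
  congr 1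
  have h1 : ∀ c, (((fun c => xor b c) ⁻¹' s).indicator 1 c : ℝ≥0∞) = s.indicator 1 (xor b c) := by
    intro c
    by_cases h : xor b c ∈ s
    · rw [indicator_of_mem h, indicator_of_mem (show c ∈ (fun c => xor b c) ⁻¹' s from h)]
      rfl
    · rw [indicator_of_notMem h, indicator_of_notMem (show c ∉ (fun c => xor b c) ⁻¹' s from h)]
  rw [h1, h1]
  cases b
  · simp
  · simp only [Bool.true_xor, Bool.not_true, Bool.not_false]
    rw [add_comm]

/-- the coin tossing measure -/
noncomputable def mu : Measure C := Measure.infinitePi (fun _ : ℕ => coin)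

instance : IsProbabilityMeasure mu := by unfold mu; infer_instance

/-- the sum modulo two -/
def add (t x : C) : C := fun n => xor (t n) (x n)

lemma add_add (t x : C) : add t (add t x) = x := by
  funext n
  simp [add]

lemma measurable_add (t : C) : Measurable (add t) :=
  measurable_pi_lambda _ fun n => (measurable_of_countable (fun c => xor (t n) c)).comp
    (measurable_pi_apply n)

lemma mu_map_add (t : C) : mu.map (add t) = mu := by
  have h := Measure.infinitePi_map_pi (fun _ : ℕ => coin) (f := fun n c => xor (t n) c)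
    (fun n => measurable_of_countable _)
  unfold mu
  have h2 : (fun n => coin.map (fun c => xor (t n) c)) = fun _ => coin :=
    funext fun n => coin_map_xor (t n)
  have h3 : (add t) = fun (x : C) n => xor (t n) (x n) := rfl
  rw [h3, h]
  congr 1

lemma add_image (t : C) (W : Set C) : add t '' W = add t ⁻¹' W := by
  ext y
  constructor
  · rintro ⟨x, hx, rfl⟩
    show add t (add t x) ∈ W
    rw [add_add]; exact hx
  · intro hy
    exact ⟨add t y, hy, add_add t y⟩

lemma mu_preimage_add (t : C) {W : Set C} (hW : MeasurableSet W) : mu (add t ⁻¹' W) = mu W := by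
  conv_rhs => rw [← mu_map_add t]
  rw [Measure.map_apply (measurable_add t) hW]

lemma measurableSet_agr (k : ℕ) (x : C) : MeasurableSet {y : C | Agr k x y} :=
  (isOpen_agr k x).measurableSet

lemma mu_cyl (k : ℕ) (x : C) : mu {y : C | Agr k x y} = (2⁻¹ : ℝ≥0∞) ^ k := by
  have h : {y : C | Agr k x y} = Set.pi (Finset.range k : Set ℕ) (fun i => {x i}) := by
    ext y
    simp [Agr, Set.mem_pi]
  rw [h, mu, Measure.infinitePi_pi _ (fun i _ => MeasurableSet.of_discrete)]
  simp [coin_singleton]

lemma half_pow_pos (k : ℕ) : (0 : ℝ≥0∞) < (2⁻¹ : ℝ≥0∞) ^ k :=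
  ENNReal.pow_pos (by norm_num) _

lemma tendsto_half_pow : Filter.Tendsto (fun k : ℕ => (2⁻¹ : ℝ≥0∞) ^ k) Filter.atTop (𝓝 0) :=
  ENNReal.tendsto_pow_atTop_nhds_zero_of_lt_one (by
    rw [ENNReal.inv_lt_one]; norm_num)

lemma exists_half_pow_lt {a : ℝ≥0∞} (ha : 0 < a) : ∃ k : ℕ, (2⁻¹ : ℝ≥0∞) ^ k < a :=
  ((tendsto_order.1 tendsto_half_pow).2 a ha).exists

lemma mu_singleton (x : C) : mu {x} = 0 := by
  by_contra h
  obtain ⟨k, hk⟩ := exists_half_pow_lt (pos_iff_ne_zero.2 h)
  rw [← mu_cyl k x] at hk
  exact absurd (measure_mono (μ := mu) (singleton_subset_iff.2 (agr_refl k x))) (not_le.2 hk)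

lemma mu_countable {s : Set C} (hs : s.Countable) : mu s = 0 := by
  have h : s = ⋃ x ∈ s, {x} := by simp
  rw [h]
  exact (measure_biUnion_null_iff hs).2 fun x _ => mu_singleton x

lemma mk_of_pos {B : Set C} (hB : MeasurableSet B) (h : mu B ≠ 0) : 𝔠 ≤ #B :=
  continuum_le_of_borel hB fun hc => h (mu_countable hc)

lemma measurableSet_E0 {F : C → C} (hF : Measurable F) : MeasurableSet {x | E0 x (F x)} := by
  have h : {x | E0 x (F x)} = ⋃ N : ℕ, ⋂ n ∈ {n | N ≤ n}, {x : C | x n = F x n} := by
    ext x
    simp only [mem_ofPred_eq, mem_iUnion, mem_iInter]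
    constructor
    · intro hx
      exact hx.exists_le
    · rintro ⟨N, hN⟩
      exact E0.of_le N hN
  rw [h]
  refine MeasurableSet.iUnion fun N => MeasurableSet.biInter (to_countable _) fun n _ => ?_
  exact measurableSet_eq_fun (measurable_pi_apply n) ((measurable_pi_apply n).comp hF)

/-- the point with the finite support `t` -/
def fin (t : Finset ℕ) : C := fun n => decide (n ∈ t)

lemma E0.exists_fin {x y : C} (h : E0 x y) : ∃ t : Finset ℕ, y = add (fin t) x := by
  have h' : ({n | x n ≠ y n} : Set ℕ).Finite := h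
  refine ⟨h'.toFinset, ?_⟩
  funext n
  by_cases hn : x n = y n
  · have h1 : n ∉ h'.toFinset := by simp [hn]
    simp only [add, fin, h1, decide_false, Bool.false_xor]
    exact hn.symm
  · have h1 : n ∈ h'.toFinset := by simpa using hn
    simp only [add, fin, h1, decide_true, Bool.true_xor]
    revert hn
    cases x n <;> cases y n <;> simp

lemma mu_image_le {F F' : C → C} (hF : Measurable F) (hF' : Measurable F') {W : Set C}
    (hW : ∀ x ∈ W, F' (F x) = x ∧ E0 x (F x)) : mu (F '' W) ≤ mu W := by
  let G : Set C := {x | F' (F x) = x} ∩ {x | E0 x (F x)}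
  have hG : MeasurableSet G :=
    (measurableSet_eq_fun (hF'.comp hF) measurable_id).inter (measurableSet_E0 hF)
  let B : Set C := toMeasurable mu W ∩ G
  have hB : MeasurableSet B := (measurableSet_toMeasurable _ _).inter hG
  have hWB : W ⊆ B := fun x hx => ⟨subset_toMeasurable _ _ hx, hW x hx⟩
  have hBW : mu B ≤ mu W := (measure_mono inter_subset_left).trans (measure_toMeasurable W).le
  -- the pieces
  let T : Finset ℕ → Set C := fun t => B ∩ {x | F x = add (fin t) x}
  have hT : ∀ t, MeasurableSet (T t) := fun t =>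
    hB.inter (measurableSet_eq_fun hF (measurable_add _))
  have hTd : Pairwise (Function.onFun Disjoint T) := by
    intro s t hst
    rw [Function.onFun, Set.disjoint_left]
    rintro x ⟨-, hx⟩ ⟨-, hx'⟩
    apply hst
    have h1 : add (fin s) x = add (fin t) x := by
      have h2 : F x = add (fin s) x := hx
      have h3 : F x = add (fin t) x := hx'
      rw [← h2, h3]
    ext n
    have h2 := congrFun h1 n
    simp only [add, fin] at h2
    have h3 : decide (n ∈ s) = decide (n ∈ t) := by
      revert h2
      cases decide (n ∈ s) <;> cases decide (n ∈ t) <;> cases x n <;> simp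
    simpa using h3
  have hTu : B ⊆ ⋃ t, T t := by
    intro x hx
    obtain ⟨t, ht⟩ := E0.exists_fin hx.2.2
    exact mem_iUnion.2 ⟨t, hx, ht⟩
  have hTm : ∀ t, mu (F '' T t) = mu (T t) := by
    intro t
    have h1 : F '' T t = add (fin t) '' T t := by
      refine image_congr fun x hx => hx.2
    rw [h1, add_image, mu_preimage_add _ (hT t)]
  calc mu (F '' W) ≤ mu (F '' (⋃ t, T t)) := measure_mono (image_mono (hWB.trans hTu))
    _ = mu (⋃ t, F '' T t) := by rw [image_iUnion]
    _ ≤ ∑' t, mu (F '' T t) := measure_iUnion_le _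
    _ = ∑' t, mu (T t) := by simp_rw [hTm]
    _ = mu (⋃ t, T t) := (measure_iUnion hTd hT).symm
    _ ≤ mu B := measure_mono (iUnion_subset fun t => inter_subset_left)
    _ ≤ mu W := hBW

/-- A Borel isomorphism which changes finitely many coordinates preserves the outer measure. -/
theorem mu_image_eq {F F' : C → C} (hF : Measurable F) (hF' : Measurable F') {W : Set C}
    (hW : ∀ x ∈ W, F' (F x) = x ∧ E0 x (F x)) : mu (F '' W) = mu W := by
  refine le_antisymm (mu_image_le hF hF' hW) ?_
  have h1 : F' '' (F '' W) = W := by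
    rw [image_image]
    ext x
    constructor
    · rintro ⟨y, hy, rfl⟩
      simp only
      rw [(hW y hy).1]; exact hy
    · intro hx
      exact ⟨x, hx, (hW x hx).1⟩
  have h2 := mu_image_le hF' hF (W := F '' W) (by
    rintro _ ⟨x, hx, rfl⟩
    rw [(hW x hx).1]
    exact ⟨rfl, (hW x hx).2.symm⟩)
  rwa [h1] at h2

end Pool.Agent.R475.SH
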